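import Pool.Agent.H59.LIN.Targets

/-!
# Row HT of the board lin_modules (MP_559314_gt): the trace property
-/

set_option autoImplicit false

open Finset Pool.Agent.H59.LIN

namespace Pool.Agent.H80.LIN

section

variable {K : Type} [CommRing K]

theorem gp_lt (m k : ℕ) (h : k < m + 2) (x : MM K (m + 1)) :
    gp K m k x = (x : Fin (m + 2) → MM K m) ⟨k, h⟩ := by
  have h1 : gp K m k = (LinearMap.proj (φ := fun _ : Fin (m + 2) => MM K m) ⟨k, h⟩ :
    (Fin (m + 2) → MM K m) →ₗ[K] MM K m) := dif_pos h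
  exact congrArg (fun f : MM K (m + 1) →ₗ[K] MM K m => f x) h1

theorem ext_gp (m : ℕ) (x y : MM K (m + 1)) (h : ∀ l < m + 2, gp K m l x = gp K m l y) :
    x = y := by
  have h1 : (x : Fin (m + 2) → MM K m) = (y : Fin (m + 2) → MM K m) := by
    funext l
    have h2 := h l l.2
    rw [gp_lt m l l.2, gp_lt m l l.2] at h2
    exact h2
  exact h1

theorem gp_sg (m k l : ℕ) (hk : k < m + 2) (hl : l < m + 2) (y : MM K m) :
    gp K m l (sg K m k y) = if l = k then y else 0 := by
  have h0 : sg K m k = (LinearMap.single K (fun _ : Fin (m + 2) => MM K m) ⟨k, hk⟩ :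
    MM K m →ₗ[K] (Fin (m + 2) → MM K m)) := dif_pos hk
  have h1 : ((LinearMap.single K (fun _ : Fin (m + 2) => MM K m) ⟨k, hk⟩ :
      MM K m →ₗ[K] (Fin (m + 2) → MM K m)) y) ⟨l, hl⟩ = if l = k then y else 0 := by
    rw [LinearMap.single_apply]
    by_cases h : l = k
    · subst h
      rw [if_pos rfl, Pi.single_eq_same]
    · rw [if_neg h, Pi.single_eq_of_ne]
      intro h2
      exact h (congrArg Fin.val h2)
  rw [gp_lt m l hl, h0]
  exact h1

theorem gp_pim (m : ℕ) {V : Type} [AddCommGroup V] [Module K V] (F : ℕ → V →ₗ[K] MM K m) (v : V)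
    (l : ℕ) (hl : l < m + 2) : gp K m l (pim K m F v) = F l v := by
  rw [gp_lt m l hl]
  rfl

/-- the decomposition -/
theorem dec (m : ℕ) (x : MM K (m + 1)) : x = ∑ k ∈ range (m + 2), sg K m k (gp K m k x) := by
  apply ext_gp
  intro l hl
  rw [map_sum, Finset.sum_eq_single l]
  · rw [gp_sg m l l hl hl, if_pos rfl]
  · intro k hk hkl
    rw [gp_sg m k l (Finset.mem_range.1 hk) hl, if_neg (Ne.symm hkl)]
  · intro h
    exact absurd (Finset.mem_range.2 hl) h

theorem lin_ext (m : ℕ) {V : Type} [AddCommGroup V] [Module K V] (f g : MM K (m + 1) →ₗ[K] V)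
    (h : ∀ k < m + 2, ∀ y, f (sg K m k y) = g (sg K m k y)) (x : MM K (m + 1)) : f x = g x := by
  rw [dec m x, map_sum, map_sum]
  exact Finset.sum_congr rfl fun k hk => h k (Finset.mem_range.1 hk) _

variable (s κ δ : K)

/-- products of right multiplications -/
def pr (m : ℕ) (L : List ℕ) : Module.End K (MM K m) :=
  (L.map fun i => (RR s κ m i : Module.End K (MM K m))).prod

theorem pr_nil (m : ℕ) (x : MM K m) : pr s κ m [] x = x := rfl

theorem pr_cons (m i : ℕ) (L : List ℕ) (x : MM K m) :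
    pr s κ m (i :: L) x = RR s κ m i (pr s κ m L x) := by
  unfold pr
  rw [List.map_cons, List.prod_cons]
  rfl

theorem pr_snoc (m i : ℕ) (L : List ℕ) (x : MM K m) :
    pr s κ m (L ++ [i]) x = pr s κ m L (RR s κ m i x) := by
  induction L with
  | nil => rw [List.nil_append, pr_cons, pr_nil, pr_nil]
  | cons j L ih => rw [List.cons_append, pr_cons, pr_cons, ih]

theorem RC_eq (m k : ℕ) (x : MM K m) : RC s κ m k x = pr s κ m (List.range' k (m - k)) x := rfl

theorem RC_self (m : ℕ) (x : MM K m) : RC s κ m m x = x := by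
  rw [RC_eq, Nat.sub_self]
  exact pr_nil s κ m x

theorem RC_succ (m k : ℕ) (hk : k ≤ m) (x : MM K (m + 1)) :
    RC s κ (m + 1) k x = pr s κ (m + 1) (List.range' k (m - k)) (RR s κ (m + 1) m x) := by
  have h1 : m + 1 - k = (m - k) + 1 := by omega
  have h2 : k + 1 * (m - k) = m := by omega
  rw [RC_eq, h1, List.range'_concat, h2, pr_snoc]

theorem mem_r (m k i : ℕ) (hi : i ∈ List.range' k (m - k)) : i < m := by
  rw [List.mem_range'_1] at hi
  omega

/-! ### values on the basis -/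

theorem EX_apply (m : ℕ) (x : MM K (m + 1)) : EX s κ δ m x =
    δ • gp K m (m + 1) x + ∑ k ∈ range (m + 1), RC s κ m k (gp K m k x) := by
  unfold EX
  rw [LinearMap.add_apply, LinearMap.smul_apply, LinearMap.sum_apply]
  rfl

theorem EX_sg_top (m : ℕ) (y : MM K m) : EX s κ δ m (sg K m (m + 1) y) = δ • y := by
  rw [EX_apply, gp_sg m (m + 1) (m + 1) (by omega) (by omega), if_pos rfl, Finset.sum_eq_zero,
    add_zero]
  intro k hk
  have hk' := Finset.mem_range.1 hk
  rw [gp_sg m (m + 1) k (by omega) (by omega), if_neg (by omega), map_zero]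

theorem EX_sg (m k : ℕ) (hk : k ≤ m) (y : MM K m) : EX s κ δ m (sg K m k y) = RC s κ m k y := by
  rw [EX_apply, gp_sg m k (m + 1) (by omega) (by omega), if_neg (by omega), smul_zero, zero_add,
    Finset.sum_eq_single k]
  · rw [gp_sg m k k (by omega) (by omega), if_pos rfl]
  · intro l hl hlk
    have hl' := Finset.mem_range.1 hl
    rw [gp_sg m k l (by omega) (by omega), if_neg hlk, map_zero]
  · intro h
    exact absurd (Finset.mem_range.2 (by omega)) h

theorem RR_gp (m i l : ℕ) (hl : l < m + 2) (x : MM K (m + 1)) :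
    gp K m l (RR s κ (m + 1) i x) =
      if l < i then RR s κ m (i - 1) (gp K m l x)
      else if l = i then gp K m (i + 1) x + s • gp K m i x
      else if l = i + 1 then κ • gp K m i x
      else RR s κ m i (gp K m l x) := by
  have h0 : RR s κ (m + 1) i = pim K m fun l =>
      if l < i then RR s κ m (i - 1) ∘ₗ gp K m l
      else if l = i then gp K m (i + 1) + s • gp K m i
      else if l = i + 1 then κ • gp K m i
      else RR s κ m i ∘ₗ gp K m l := rfl
  rw [h0, gp_pim m _ _ l hl]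
  split_ifs <;> rfl

theorem RR_top (m : ℕ) (y : MM K m) :
    RR s κ (m + 1) m (sg K m (m + 1) y) = sg K m m y := by
  apply ext_gp
  intro l hl
  rw [RR_gp s κ m m l hl, gp_sg m (m + 1) l (by omega) hl,
    gp_sg m (m + 1) (m + 1) (by omega) (by omega), gp_sg m (m + 1) m (by omega) (by omega),
    gp_sg m m l (by omega) hl, if_pos rfl, if_neg (by omega : ¬ m = m + 1)]
  by_cases h1 : l < m
  · rw [if_pos h1, if_neg (by omega), if_neg (by omega), map_zero]
  · by_cases h2 : l = m
    · rw [if_neg h1, if_pos h2, if_pos h2, smul_zero, add_zero]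
    · have h3 : l = m + 1 := by omega
      rw [if_neg h1, if_neg h2, if_pos h3, if_neg h2, smul_zero]

theorem RR_mid (m : ℕ) (y : MM K m) :
    RR s κ (m + 1) m (sg K m m y) = s • sg K m m y + κ • sg K m (m + 1) y := by
  apply ext_gp
  intro l hl
  rw [RR_gp s κ m m l hl, map_add, map_smul, map_smul, gp_sg m m l (by omega) hl,
    gp_sg m m (m + 1) (by omega) (by omega), gp_sg m m m (by omega) (by omega),
    gp_sg m (m + 1) l (by omega) hl, if_pos rfl, if_neg (by omega : ¬ m + 1 = m)]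
  by_cases h1 : l < m
  · rw [if_pos h1, if_neg (by omega), if_neg (by omega), map_zero, smul_zero, smul_zero, add_zero]
  · by_cases h2 : l = m
    · rw [if_neg h1, if_pos h2, if_pos h2, if_neg (by omega), smul_zero, add_zero, zero_add]
    · have h3 : l = m + 1 := by omega
      rw [if_neg h1, if_neg h2, if_pos h3, if_neg h2, if_pos h3, smul_zero, zero_add]

theorem RR_low (m k : ℕ) (hk : k < m) (y : MM K m) :
    RR s κ (m + 1) m (sg K m k y) = sg K m k (RR s κ m (m - 1) y) := by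
  apply ext_gp
  intro l hl
  rw [RR_gp s κ m m l hl, gp_sg m k l (by omega) hl, gp_sg m k (m + 1) (by omega) (by omega),
    gp_sg m k m (by omega) (by omega), gp_sg m k l (by omega) hl,
    if_neg (by omega : ¬ m + 1 = k), if_neg (by omega : ¬ m = k), smul_zero, add_zero, smul_zero]
  by_cases h1 : l < m
  · rw [if_pos h1]
    by_cases h2 : l = k
    · rw [if_pos h2, if_pos h2]
    · rw [if_neg h2, if_neg h2, map_zero]
  · have h4 : ¬ l = k := by omega
    rw [if_neg h1, if_neg h4, if_neg h4]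
    by_cases h2 : l = m
    · rw [if_pos h2]
    · have h3 : l = m + 1 := by omega
      rw [if_neg h2, if_pos h3]

theorem la_succ (m j : ℕ) (hj : j < m + 2) (z : MM K m) :
    la K (m + 1) (sg K m j z) = sg K (m + 1) j (io K m z) := by
  have h0 : la K (m + 1) = pim K (m + 1) fun j => if j < m + 2 then io K m ∘ₗ gp K m j else 0 := rfl
  apply ext_gp
  intro l hl
  rw [h0, gp_pim (m + 1) _ _ l hl, gp_sg (m + 1) j l (by omega) hl]
  by_cases h1 : l < m + 2
  · rw [if_pos h1, LinearMap.comp_apply, gp_sg m j l hj h1]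
    by_cases h2 : l = j
    · rw [if_pos h2, if_pos h2]
    · rw [if_neg h2, if_neg h2, map_zero]
  · rw [if_neg h1, if_neg (by omega), LinearMap.zero_apply]

theorem LL_low (m i l : ℕ) (hi : i < m) (hl : l < m + 2) (x : MM K (m + 1)) :
    gp K m l (LL s κ (m + 1) i x) = LL s κ m i (gp K m l x) := by
  have h0 : LL s κ (m + 1) i = if i < m then pim K m fun l => LL s κ m i ∘ₗ gp K m l
      else ∑ k ∈ range (m + 2), (RC s κ (m + 1) k : MM K (m + 1) →ₗ[K] MM K (m + 1)) ∘ₗ
        la K m ∘ₗ gp K m k := rfl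
  rw [h0, if_pos hi, gp_pim m _ _ l hl]
  rfl

theorem LL_top (m k : ℕ) (hk : k < m + 2) (y : MM K m) :
    LL s κ (m + 1) m (sg K m k y) = RC s κ (m + 1) k (la K m y) := by
  have h0 : LL s κ (m + 1) m = if m < m then pim K m fun l => LL s κ m m ∘ₗ gp K m l
      else ∑ k ∈ range (m + 2), (RC s κ (m + 1) k : MM K (m + 1) →ₗ[K] MM K (m + 1)) ∘ₗ
        la K m ∘ₗ gp K m k := rfl
  rw [h0, if_neg (lt_irrefl m), LinearMap.sum_apply, Finset.sum_eq_single k]
  · rw [LinearMap.comp_apply, LinearMap.comp_apply, gp_sg m k k hk hk, if_pos rfl]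
  · intro l hl hlk
    rw [LinearMap.comp_apply, LinearMap.comp_apply, gp_sg m k l hk (Finset.mem_range.1 hl),
      if_neg hlk, map_zero, map_zero]
  · intro h
    exact absurd (Finset.mem_range.2 hk) h

theorem TT_succ (m : ℕ) (x : MM K (m + 1)) : TT s κ δ (m + 1) x = TT s κ δ m (EX s κ δ m x) := rfl

/-! ### commutation with products -/

theorem EX_pr (hHE : T_HE) (m : ℕ) (L : List ℕ) (hL : ∀ i ∈ L, i < m) (x : MM K (m + 1)) :
    EX s κ δ m (pr s κ (m + 1) L x) = pr s κ m L (EX s κ δ m x) := by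
  induction L with
  | nil => rfl
  | cons i L ih =>
    rw [pr_cons, pr_cons, hHE K s κ δ m i (hL i List.mem_cons_self),
      ih fun j hj => hL j (List.mem_cons_of_mem _ hj)]

theorem io_pr (hHC : T_HC) (m : ℕ) (L : List ℕ) (hL : ∀ i ∈ L, i < m) (x : MM K m) :
    io K m (pr s κ m L x) = pr s κ (m + 1) L (io K m x) := by
  induction L with
  | nil => rfl
  | cons i L ih =>
    rw [pr_cons, pr_cons, (hHC K s κ m).1 i (hL i List.mem_cons_self),
      ih fun j hj => hL j (List.mem_cons_of_mem _ hj)]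

theorem LL_pr (hHL : T_HL) (m i : ℕ) (hi : i < m) (L : List ℕ) (hL : ∀ i ∈ L, i < m)
    (x : MM K m) : LL s κ m i (pr s κ m L x) = pr s κ m L (LL s κ m i x) := by
  induction L with
  | nil => rfl
  | cons j L ih =>
    rw [pr_cons, pr_cons, (hHL K s κ m).2.1 i j hi (hL j List.mem_cons_self),
      ih fun j hj => hL j (List.mem_cons_of_mem _ hj)]

/-- the conditional expectation is left linear -/
theorem EX_LL (hHL : T_HL) (m i : ℕ) (hi : i < m) (x : MM K (m + 1)) :
    EX s κ δ m (LL s κ (m + 1) i x) = LL s κ m i (EX s κ δ m x) := by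
  rw [EX_apply, EX_apply, map_add, map_smul, map_sum, LL_low s κ m i (m + 1) hi (by omega)]
  congr 1
  refine Finset.sum_congr rfl fun k hk => ?_
  have hk' := Finset.mem_range.1 hk
  rw [LL_low s κ m i k hi (by omega), RC_eq, RC_eq, LL_pr s κ hHL m i hi _ (mem_r m k)]

/-- the value of `x ↦ E (x g_m c_k)` -/
theorem EX_RC (hHE : T_HE) (m k : ℕ) (hk : k ≤ m) (x : MM K (m + 1)) :
    EX s κ δ m (RC s κ (m + 1) k x) = RC s κ m k (EX s κ δ m (RR s κ (m + 1) m x)) := by
  rw [RC_succ s κ m k hk, EX_pr s κ δ hHE m _ (mem_r m k), RC_eq]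

/-- `E (x c_j g_m)` -/
theorem EX_RR_sg (m j : ℕ) (hj : j ≤ m) (w : MM K m) :
    EX s κ δ m (RR s κ (m + 1) m (sg K m j w)) =
      if j = m then (s + κ * δ) • w else RC s κ m j (RR s κ m (m - 1) w) := by
  by_cases h : j = m
  · subst h
    rw [if_pos rfl, RR_mid, map_add, map_smul, map_smul, EX_sg s κ δ j j le_rfl, EX_sg_top,
      RC_self, smul_smul, ← add_smul]
  · rw [if_neg h, RR_low s κ m j (by omega), EX_sg s κ δ m j hj]

/-- the traces of `z c_j` and of `z` -/
theorem TT_sg (M j : ℕ) (hj : j ≤ M) (z : MM K M) :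
    TT s κ δ (M + 1) (sg K M j z) = TT s κ δ M (RC s κ M j z) := by
  rw [TT_succ, EX_sg s κ δ M j hj]

/-- identity A -/
theorem idA (hHR : T_HR) (hHC : T_HC) (M j : ℕ) (hj : j ≤ M) (z : MM K M) :
    TT s κ δ (M + 1) (RC s κ (M + 1) j (RR s κ (M + 1) M (io K M z))) =
      (s + κ * δ) * TT s κ δ (M + 1) (RC s κ (M + 1) j (io K M z)) := by
  have h1 : RC s κ (M + 1) j (RR s κ (M + 1) M (io K M z)) =
      κ • io K M (RC s κ M j z) + s • RC s κ (M + 1) j (io K M z) := by
    rw [RC_succ s κ M j hj, RC_succ s κ M j hj, (hHR K s κ (M + 1)).1 M (by omega), map_add,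
      map_smul, map_smul, RC_eq, io_pr s κ hHC M _ (mem_r M j)]
  have h2 : RC s κ (M + 1) j (io K M z) = sg K M j z := (hHC K s κ M).2.1 j (by omega) z
  have h3 : TT s κ δ (M + 1) (io K M (RC s κ M j z)) = δ * TT s κ δ M (RC s κ M j z) := by
    rw [TT_succ]
    have h4 : io K M (RC s κ M j z) = sg K M (M + 1) (RC s κ M j z) := rfl
    rw [h4, EX_sg_top, map_smul, smul_eq_mul]
  rw [h1, h2, map_add, map_smul, map_smul, h3, TT_sg s κ δ M j hj, smul_eq_mul, smul_eq_mul]
  ring

/-- identity B -/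
theorem idB (hHR : T_HR) (hHC : T_HC) (hHE : T_HE) (M j k : ℕ) (hj : j ≤ M) (hk : k ≤ M)
    (z : MM K M) :
    TT s κ δ (M + 1) (RC s κ (M + 1) k (RC s κ (M + 1) j (RR s κ (M + 1) M (io K M z)))) =
      TT s κ δ (M + 1) (RC s κ (M + 1) k (RR s κ (M + 1) M (RC s κ (M + 1) j (io K M z)))) := by
  have h2 : RC s κ (M + 1) j (io K M z) = sg K M j z := (hHC K s κ M).2.1 j (by omega) z
  have h1 : RC s κ (M + 1) j (RR s κ (M + 1) M (io K M z)) =
      κ • io K M (RC s κ M j z) + s • RC s κ (M + 1) j (io K M z) := by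
    rw [RC_succ s κ M j hj, RC_succ s κ M j hj, (hHR K s κ (M + 1)).1 M (by omega), map_add,
      map_smul, map_smul, RC_eq, io_pr s κ hHC M _ (mem_r M j)]
  have h3 : RC s κ (M + 1) k (RR s κ (M + 1) M (sg K M j z)) =
      κ • pr s κ (M + 1) (List.range' k (M - k)) (sg K M j z) +
        s • RC s κ (M + 1) k (sg K M j z) := by
    rw [RC_succ s κ M k hk, RC_succ s κ M k hk, (hHR K s κ (M + 1)).1 M (by omega), map_add,
      map_smul, map_smul]
  have h4 : RC s κ (M + 1) k (io K M (RC s κ M j z)) = sg K M k (RC s κ M j z) :=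
    (hHC K s κ M).2.1 k (by omega) _
  have h5 : TT s κ δ (M + 1) (pr s κ (M + 1) (List.range' k (M - k)) (sg K M j z)) =
      TT s κ δ (M + 1) (sg K M k (RC s κ M j z)) := by
    rw [TT_succ, TT_succ, EX_pr s κ δ hHE M _ (mem_r M k), EX_sg s κ δ M j hj,
      EX_sg s κ δ M k hk, ← RC_eq]
  rw [h1, h2, h3, map_add, map_smul, map_smul, h4, map_add, map_smul, map_smul, map_add, map_smul,
    map_smul, h5]

/-- the key step -/
theorem key (hHR : T_HR) (hHC : T_HC) (hHE : T_HE) (m : ℕ) (k : ℕ) (hk : k < m + 2)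
    (y : MM K m) : TT s κ δ m (EX s κ δ m (LL s κ (m + 1) m (sg K m k y))) =
      TT s κ δ m (EX s κ δ m (RR s κ (m + 1) m (sg K m k y))) := by
  rw [LL_top s κ m k hk]
  cases m with
  | zero =>
    have hla : la K 0 y = sg K 0 0 y := rfl
    rw [hla]
    by_cases h : k = 1
    · subst h
      rw [RC_self, RR_top]
    · have h0 : k = 0 := by omega
      subst h0
      rw [EX_RC s κ δ hHE 0 0 le_rfl, RC_self]
  | succ M =>
    -- linearity in `y`
    have hlin : ∀ (f g : MM K (M + 1) →ₗ[K] K),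
        (∀ j < M + 2, ∀ z, f (sg K M j z) = g (sg K M j z)) → f y = g y :=
      fun f g h => lin_ext M f g h y
    refine hlin (TT s κ δ (M + 1) ∘ₗ EX s κ δ (M + 1) ∘ₗ
      (RC s κ (M + 1 + 1) k : MM K (M + 1 + 1) →ₗ[K] MM K (M + 1 + 1)) ∘ₗ la K (M + 1))
      (TT s κ δ (M + 1) ∘ₗ EX s κ δ (M + 1) ∘ₗ RR s κ (M + 1 + 1) (M + 1) ∘ₗ sg K (M + 1) k) ?_
    intro j hj z
    show TT s κ δ (M + 1) (EX s κ δ (M + 1) (RC s κ (M + 1 + 1) k (la K (M + 1) (sg K M j z)))) =
      TT s κ δ (M + 1) (EX s κ δ (M + 1) (RR s κ (M + 1 + 1) (M + 1) (sg K (M + 1) k (sg K M j z))))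
    rw [la_succ M j hj z]
    have hw : RC s κ (M + 1) j (io K M z) = sg K M j z := (hHC K s κ M).2.1 j (by omega) z
    by_cases hk1 : k = M + 2
    · subst hk1
      rw [RC_self, RR_top, EX_sg s κ δ (M + 1) (M + 1) le_rfl, RC_self,
        EX_sg s κ δ (M + 1) j (by omega), hw]
    · have hk2 : k ≤ M + 1 := by omega
      rw [EX_RC s κ δ hHE (M + 1) k hk2, EX_RR_sg s κ δ (M + 1) j (by omega),
        EX_RR_sg s κ δ (M + 1) k hk2, Nat.add_sub_cancel, ← hw]
      by_cases hjm : j = M + 1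
      · subst hjm
        rw [if_pos rfl, RC_self]
        by_cases hkm : k = M + 1
        · subst hkm
          rw [if_pos rfl, RC_self]
        · rw [if_neg hkm, map_smul, map_smul, smul_eq_mul,
            idA s κ δ hHR hHC M k (by omega)]
      · rw [if_neg hjm]
        by_cases hkm : k = M + 1
        · subst hkm
          rw [if_pos rfl, RC_self, map_smul, smul_eq_mul, idA s κ δ hHR hHC M j (by omega)]
        · rw [if_neg hkm, idB s κ δ hHR hHC hHE M j k (by omega) (by omega)]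

end

theorem pf_HT (hHR : Pool.Agent.H59.LIN.T_HR) (hHC : Pool.Agent.H59.LIN.T_HC)
    (hHL : Pool.Agent.H59.LIN.T_HL) (hHE : Pool.Agent.H59.LIN.T_HE) : Pool.Agent.H59.LIN.T_HT := by
  intro K _ s κ δ _ m
  induction m with
  | zero => intro i hi; exact absurd hi (Nat.not_lt_zero i)
  | succ m ih =>
    intro i hi x
    rw [TT_succ, TT_succ]
    by_cases h : i < m
    · rw [EX_LL s κ δ hHL m i h, ih i h, hHE K s κ δ m i h]
    · have h1 : i = m := by omega
      subst h1
      refine lin_ext i (TT s κ δ i ∘ₗ EX s κ δ i ∘ₗ LL s κ (i + 1) i)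
        (TT s κ δ i ∘ₗ EX s κ δ i ∘ₗ RR s κ (i + 1) i) ?_ x
      intro k hk y
      exact key s κ δ hHR hHC hHE i k hk y

end Pool.Agent.H80.LIN
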